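import Pool.Agent.OrdThm.OSJ

/-! Rich inseparable sets of a domain `X`: none, exactly one maximal one, or a separation of two of
them; colouring (with forbidden colours) of a set outside the unique one. -/

open Classical

namespace Pool.Agent.BlobCol

open Pool.Agent.Mader (Acyc Conn)
open Pool.Agent.OrdThm

universe u

variable {V : Type u}

/-- If every `q`-inseparable subset (in `X`) of `W` has at most `β` elements, then `W` has a
colouring with `β + m + 2 * (q - 1)` colours, `m` of them forbidden at every vertex. -/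
theorem leaf {a : V → V → Prop} (hirr : ∀ v, ¬ a v v) (Z : Finset V) {X W : Finset V}
    {β m q : ℕ} (hW : W ⊆ X) (h : ∀ K ⊆ W, Insep a Z q X K → K.card ≤ β) :
    LCol a m W (β + m + 2 * (q - 1)) := by
  by_contra hcon
  obtain ⟨K, hK, hins, hbad⟩ := halving_junk (q := q) Z hW hcon
  have h1 := h K hK hins
  have h2 := card_of_not_LCol hirr hbad
  omega

/-- The set `K` is the rich blob of the state `(X, A)`: it is inseparable in `X`, meets `A` in more
than `β` vertices, and contains every other such set. -/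
def IsBlob (a : V → V → Prop) (Z : Finset V) (q β : ℕ) (X A K : Finset V) : Prop :=
  Insep a Z q X K ∧ β < (K ∩ A).card ∧
    ∀ K', Insep a Z q X K' → β < (K' ∩ A).card → K' ⊆ K

/-- Outside the rich blob everything is cheap. -/
theorem outside {a : V → V → Prop} (hirr : ∀ v, ¬ a v v) {Z : Finset V} {X A K F : Finset V}
    {β m q : ℕ} (hK : IsBlob a Z q β X A K) (hF : F ⊆ A) (hA : A ⊆ X) :
    LCol a m (F \ K) (β + m + 2 * (q - 1)) := by
  refine leaf hirr Z (Finset.sdiff_subset.trans (hF.trans hA)) ?_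
  intro K' hK' hins
  by_contra hlt
  push Not at hlt
  have hsub : K' ⊆ A := hK'.trans (Finset.sdiff_subset.trans hF)
  have h1 : K' ⊆ K := hK.2.2 K' hins (by
    rw [Finset.inter_eq_left.mpr hsub]
    exact hlt)
  have h2 : K'.Nonempty := Finset.card_pos.mp (by omega)
  obtain ⟨v, hv⟩ := h2
  exact (Finset.mem_sdiff.mp (hK' hv)).2 (h1 hv)

/-- No rich inseparable set, or a rich blob, or two rich inseparable sets which are separated by a
region of order less than `q`. -/
theorem trichotomy (a : V → V → Prop) (Z : Finset V) (q β : ℕ) (X A : Finset V) :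
    (∀ K, Insep a Z q X K → (K ∩ A).card ≤ β) ∨
    (∃ K, IsBlob a Z q β X A K) ∨
    ∃ K₁ K₂ R, Insep a Z q X K₁ ∧ Insep a Z q X K₂ ∧ β < (K₁ ∩ A).card ∧
      β < (K₂ ∩ A).card ∧ R ⊆ X ∪ Z ∧ (nb a (X ∪ Z) R).card < q ∧
      K₁ ⊆ R ∪ nb a (X ∪ Z) R ∧ ¬ Disjoint K₁ R ∧ Disjoint K₂ R := by
  by_cases h0 : ∀ K, Insep a Z q X K → (K ∩ A).card ≤ β
  · exact Or.inl h0
  · right
    push Not at h0
    obtain ⟨K0, hK0, hr0⟩ := h0
    -- a largest rich inseparable set
    have hne : (X.powerset.filter (fun K => Insep a Z q X K ∧ β < (K ∩ A).card)).Nonempty :=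
      ⟨K0, Finset.mem_filter.mpr ⟨Finset.mem_powerset.mpr hK0.1, hK0, hr0⟩⟩
    obtain ⟨K1, hK1, hmax⟩ := Finset.exists_max_image _ Finset.card hne
    rw [Finset.mem_filter] at hK1
    by_cases hall : ∀ K', Insep a Z q X K' → β < (K' ∩ A).card → K' ⊆ K1
    · exact Or.inl ⟨K1, hK1.2.1, hK1.2.2, hall⟩
    · right
      push Not at hall
      obtain ⟨K2, hK2, hr2, hn⟩ := hall
      have hnot : ¬ Insep a Z q X (K1 ∪ K2) := by
        intro h
        have hr : β < ((K1 ∪ K2) ∩ A).card :=
          hK1.2.2.trans_le (Finset.card_le_card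
            (Finset.inter_subset_inter_right Finset.subset_union_left))
        have h1 := hmax (K1 ∪ K2) (Finset.mem_filter.mpr
          ⟨Finset.mem_powerset.mpr h.1, h, hr⟩)
        have h2 : K1 = K1 ∪ K2 :=
          Finset.eq_of_subset_of_card_le Finset.subset_union_left h1
        apply hn
        rw [h2]
        exact Finset.subset_union_right
      unfold Insep at hnot
      push Not at hnot
      obtain ⟨R, hR, hc, hd, hs⟩ := hnot (Finset.union_subset hK1.2.1.1 hK2.1)
      rw [Finset.disjoint_union_left] at hd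
      rcases hK1.2.1.2 R hR hc with a1 | a1
      · rcases hK2.2 R hR hc with a2 | a2
        · exact absurd ⟨a1, a2⟩ hd
        · exact ⟨K2, K1, R, hK2, hK1.2.1, hr2, hK1.2.2, hR, hc, a2,
            fun h => hd ⟨a1, h⟩, a1⟩
      · rcases hK2.2 R hR hc with a2 | a2
        · exact ⟨K1, K2, R, hK1.2.1, hK2, hK1.2.2, hr2, hR, hc, a1,
            fun h => hd ⟨h, a2⟩, a2⟩
        · exact absurd (Finset.union_subset a1 a2) hs

/-- A rich inseparable set in a smaller domain lies in the rich blob. -/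
theorem IsBlob.mem_of_smaller {a : V → V → Prop} {Z : Finset V} {q β : ℕ}
    {X A K X' A' K' : Finset V} (hK : IsBlob a Z q β X A K) (hX : X' ⊆ X) (hA : A' ⊆ A)
    (hins : Insep a Z q X' K') (hr : β < (K' ∩ A').card) : K' ⊆ K := by
  refine hK.2.2 K' ⟨hins.1.trans hX, fun R hR hc => ?_⟩ (hr.trans_le (Finset.card_le_card
    (Finset.inter_subset_inter_left hA)))
  have hsub : nb a (X' ∪ Z) (R ∩ (X' ∪ Z)) ⊆ nb a (X ∪ Z) R := by
    intro y hy
    rw [mem_nb] at hy ⊢
    obtain ⟨h3, h4, u, hu, hau⟩ := hy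
    rw [Finset.mem_inter] at h4 hu
    refine ⟨?_, fun h5 => h4 ⟨h5, h3⟩, u, hu.1, hau⟩
    rcases Finset.mem_union.mp h3 with h5 | h5
    · exact Finset.mem_union_left _ (hX h5)
    · exact Finset.mem_union_right _ h5
  rcases hins.2 (R ∩ (X' ∪ Z)) Finset.inter_subset_right
    ((Finset.card_le_card hsub).trans_lt hc) with h3 | h3
  · left
    rw [Finset.disjoint_left] at h3 ⊢
    intro y hy hyR
    exact h3 hy (Finset.mem_inter.mpr ⟨hyR, Finset.mem_union_left _ (hins.1 hy)⟩)
  · right
    intro y hy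
    rcases Finset.mem_union.mp (h3 hy) with h4 | h4
    · exact Finset.mem_union_left _ (Finset.mem_inter.mp h4).1
    · exact Finset.mem_union_right _ (hsub h4)

/-- Two palettes. -/
theorem LCol.union_add {a : V → V → Prop} {X Y : Finset V} {m p q : ℕ} (hX : LCol a m X p)
    (hY : LCol a m Y q) : LCol a m (X ∪ Y) (p + q) := by
  intro P Φ hP hΦ
  obtain ⟨P1, hP1, hP1c⟩ := Finset.exists_subset_card_eq (s := P) (n := p) (by omega)
  obtain ⟨c1, h1, h2⟩ := hX P1 Φ (by omega) (fun v hv => hΦ v (Finset.mem_union_left _ hv))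
  obtain ⟨c2, h3, h4⟩ := hY (P \ P1) Φ (by
    rw [Finset.card_sdiff_of_subset hP1]
    omega) (fun v hv => hΦ v (Finset.mem_union_right _ hv))
  refine ⟨fun v => if v ∈ X then c1 v else c2 v, fun v hv => ?_, fun i => ?_⟩
  · by_cases hvX : v ∈ X
    · simp only [if_pos hvX]
      exact ⟨hP1 (h1 v hvX).1, (h1 v hvX).2⟩
    · simp only [if_neg hvX]
      have h5 := h3 v ((Finset.mem_union.mp hv).resolve_left hvX)
      exact ⟨(Finset.mem_sdiff.mp h5.1).1, h5.2⟩
  · by_cases hi : i ∈ P1
    · refine (h2 i).mono ?_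
      intro v hv
      rw [Finset.mem_filter] at hv ⊢
      by_cases hvX : v ∈ X
      · simp only [if_pos hvX] at hv
        exact ⟨hvX, hv.2⟩
      · simp only [if_neg hvX] at hv
        have h5 := h3 v ((Finset.mem_union.mp hv.1).resolve_left hvX)
        exact absurd (hv.2 ▸ hi) (Finset.mem_sdiff.mp h5.1).2
    · refine (h4 i).mono ?_
      intro v hv
      rw [Finset.mem_filter] at hv ⊢
      by_cases hvX : v ∈ X
      · simp only [if_pos hvX] at hv
        exact absurd (hv.2 ▸ (h1 v hvX).1) hi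
      · simp only [if_neg hvX] at hv
        exact ⟨(Finset.mem_union.mp hv.1).resolve_left hvX, hv.2⟩

/-- Attachable vertices inside the blob are few: `F ∩ K` gets different colours, `F \ K` is cheap;
together `n + m + (β + m + 2 * (q - 1))` colours. -/
theorem few {a : V → V → Prop} (hirr : ∀ v, ¬ a v v) {Z : Finset V} {X A K F : Finset V}
    {β m q n : ℕ} (hK : IsBlob a Z q β X A K) (hF : F ⊆ A) (hA : A ⊆ X)
    (hn : (F ∩ K).card ≤ n) : LCol a m F (m + n + (β + m + 2 * (q - 1))) := by
  have h1 : LCol a m (F ∩ K) (m + n) :=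
    (LCol.greedy hirr m (F ∩ K)).mono (le_refl _) (Finset.Subset.refl _) (by omega)
  have h2 := outside (m := m) hirr hK hF hA
  refine (LCol.union_add h1 h2).mono (le_refl _) ?_ (le_refl _)
  intro v hv
  by_cases hvK : v ∈ K
  · exact Finset.mem_union_left _ (Finset.mem_inter.mpr ⟨hv, hvK⟩)
  · exact Finset.mem_union_right _ (Finset.mem_sdiff.mpr ⟨hv, hvK⟩)

end Pool.Agent.BlobCol
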